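import Pool.Agent.T2H69.LRF.Bridge
import Pool.Agent.T2H69.LRF.Necessity

/-!
# Locally residually finite varieties over a finite field (MP_5aea19_al)

Let `F` be a finite field and `Id` a set of noncommutative polynomials without constant term.
The variety of (associative, not necessarily unital) `F`-algebras defined by `Id` is locally
residually finite if and only if some `f ∈ Id` has a nonzero linear part, or a nonzero
middle polynomial: for some letters `x_i, x_j`, if `f = ∑ α_w w` then
`∑ α_w [w'] ≠ 0` where the sum is over the words `w = x_i w' x_j` and `[w']` is the commutative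
monomial of `w'`.
-/

namespace Pool.Agent.Results.MP_5aea19_al.LRFCriterion

universe u

open LRF

theorem result {F : Type u} [Field F] [Finite F] (Id : Set (FreeNU F)) :
    LocallyResFinite Id ↔
      ∃ f ∈ Id, (∃ i : ℕ, f.coeff (FreeSemigroup.of i) ≠ 0) ∨
        ∃ i j : ℕ, middle i j f ≠ 0 := by
  constructor
  · intro hL
    by_contra hcon
    push Not at hcon
    obtain ⟨A, i1, i2, i3, i4, hV, hfg, hn⟩ := necessity Id hcon
    exact hn (hL A hV hfg)
  · rintro ⟨f, hf, hor⟩
    intro A _ _ _ _ hV hfg
    apply resFinite_of_rf
    have hE := finiteType_unitization hfg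
    have hfin : Finite (Unitization F A ⧸ augI F A) := finite_augI
    have hH : HoldsOn (fL f) (augI F A : Set (Unitization F A)) := holdsOn_augI (hV f hf)
    rcases hor with ⟨i, hi⟩ | ⟨i, j, hij⟩
    · refine rf_unital hE (augI F A) hfin (wrap (fL f)) (wrap_nil _) 0 1 ?_ ?_
      · apply middleL_wrap_ne_zero _ i
        rw [fL_single]
        exact hi
      · intro v hv
        rw [evalW_wrap, hH v hv, mul_zero, zero_mul]
    · refine rf_unital hE (augI F A) hfin (fL f) (fL_nil f) i j ?_ hH
      rw [middleL_fL]
      exact hij

end Pool.Agent.Results.MP_5aea19_al.LRFCriterion
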